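import Pool.Agent.MWHQ.Stmts

/-!
# Row LT6 of block MWHQ (MP_23468a_al): a light letter of degree two absorbs at both blocks
-/

set_option autoImplicit false

namespace Pool.Agent.MWHQ.H2

open Pool.Agent.Helper14_MV Pool.Agent.Helper2_MV Pool.Agent.MVO Pool.Agent.MWL Pool.Agent.MWS
  Pool.Agent.MWH

/-- **LT6** -/
theorem lt6 (arr : MWL.ArrStmt) (ta2 : MWL.Ta2Stmt) : Lt6Stmt := by
  intro n R hR hJ hD k a u v h
  have hle : ∀ p ≤ k, a p ≤ 1 := by
    intro p hp
    by_cases h1 : p = u
    · rw [h1, h.au]
    · by_cases h2 : p = v
      · rw [h2, h.av]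
      · rw [h.az p hp h1 h2]
        exact Nat.zero_le 1
  have huk : u ≤ k := h.uv.le.trans h.vk
  have hne : u ≠ v := h.uv.ne
  have hdeg : deg k a = 2 := by
    have h1 : deg k a = ∑ j ∈ ({u, v} : Finset ℕ), a j := by
      unfold deg
      symm
      apply Finset.sum_subset
      · intro j hj
        simp only [Finset.mem_insert, Finset.mem_singleton] at hj
        simp only [Finset.mem_range]
        have hv := h.vk
        rcases hj with rfl | rfl <;> omega
      · intro j hj hj'
        simp only [Finset.mem_insert, Finset.mem_singleton, not_or] at hj'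
        simp only [Finset.mem_range] at hj
        exact h.az j (by omega) hj'.1 hj'.2
    rw [h1, Finset.sum_pair hne, h.au, h.av]
  have hdeg2 : 2 ≤ deg k a := hdeg.ge
  constructor
  · have key := (ta2 n R hR k a u huk hle hdeg2).1 h.au
    rw [hdeg] at key
    refine key.2 ⟨hJ, ?_⟩
    have hlb : lb a u = 0 := by
      unfold lb
      rw [Finset.card_eq_zero, Finset.filter_eq_empty_iff]
      intro j hj
      have hj' := Finset.mem_range.1 hj
      have hv := h.vk
      have huv := h.uv
      rw [not_not]
      exact h.az j (by omega) (by omega) (by omega)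
    rw [hlb]
    exact hD
  · have key := (ta2 n R hR k a v h.vk hle hdeg2).1 h.av
    rw [hdeg] at key
    refine key.2 ⟨hJ, ?_⟩
    have hlb : lb a v = 1 := by
      unfold lb
      have h1 : (Finset.range v).filter (fun j => a j ≠ 0) = {u} := by
        ext j
        simp only [Finset.mem_filter, Finset.mem_range, Finset.mem_singleton]
        constructor
        · rintro ⟨h1, h2⟩
          by_contra hc
          have hv := h.vk
          exact h2 (h.az j (by omega) hc (by omega))
        · rintro rfl
          refine ⟨h.uv, ?_⟩
          rw [h.au]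
          exact one_ne_zero
      rw [h1, Finset.card_singleton]
    rw [hlb]
    exact (arr n R hR).2.2.2.1 0 hD

end Pool.Agent.MWHQ.H2
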